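import Mathlib

set_option autoImplicit false

namespace Pool.Agent.Results.MP_2cf295_an.DenseSpectra

/-- `C_E(𝕋)`: continuous complex functions on the circle with Fourier spectrum in `E`. -/
noncomputable def Spec (E : Set ℤ) : Submodule ℂ C(UnitAddCircle, ℂ) where
  carrier := {f | ∀ n ∉ E, fourierCoeff (⇑f) n = 0}
  add_mem' := by
    intro f g hf hg n hn
    have hadd : fourierCoeff (⇑(f + g)) n = fourierCoeff (⇑f) n + fourierCoeff (⇑g) n := by
      have := fourierCoeff.add (f := ⇑f) (g := ⇑g)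
        (f.continuous.integrable_of_hasCompactSupport (HasCompactSupport.of_compactSpace _))
        (g.continuous.integrable_of_hasCompactSupport (HasCompactSupport.of_compactSpace _))
      exact congrFun this n
    rw [hadd, hf n hn, hg n hn, add_zero]
  zero_mem' := by
    intro n _
    simp [fourierCoeff]
  smul_mem' := by
    intro c f hf n hn
    have : fourierCoeff (⇑(c • f)) n = c • fourierCoeff (⇑f) n := fourierCoeff.const_smul (⇑f) c n
    rw [this, hf n hn, smul_zero]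

/-- Translation invariance of a linear functional on `C_E(𝕋)`: `φ g = φ f` whenever `g` is the
translate `x ↦ f (x + a)` of `f`. -/
def IsTILF (E : Set ℤ) (φ : Spec E →ₗ[ℂ] ℂ) : Prop :=
  ∀ (a : UnitAddCircle) (f g : Spec E),
    (∀ x, (g : C(UnitAddCircle, ℂ)) x = (f : C(UnitAddCircle, ℂ)) (x + a)) → φ g = φ f

/-- `E` is a Sidon set: the sum of the moduli of the coefficients of a trigonometric polynomial with
frequencies in `E` is at most a constant times its supremum norm. -/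
def IsSidon (E : Set ℤ) : Prop :=
  ∃ C : ℝ, ∀ (s : Finset ℤ) (c : ℤ → ℂ), (↑s ⊆ E) →
    ∑ n ∈ s, ‖c n‖ ≤ C * ‖∑ n ∈ s, c n • (fourier n : C(UnitAddCircle, ℂ))‖

/-- Rudin-Shapiro pairs with frequencies congruent to `1` modulo `m`. -/
noncomputable def rs (m : ℕ) : ℕ → C(UnitAddCircle, ℂ) × C(UnitAddCircle, ℂ)
  | 0 => ((fourier 1 : C(UnitAddCircle, ℂ)), (fourier 1 : C(UnitAddCircle, ℂ)))
  | k + 1 =>
    ((rs m k).1 + (fourier (m * 2 ^ k : ℤ) : C(UnitAddCircle, ℂ)) * (rs m k).2,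
     (rs m k).1 - (fourier (m * 2 ^ k : ℤ) : C(UnitAddCircle, ℂ)) * (rs m k).2)

lemma norm_fourier_apply (n : ℤ) (x : UnitAddCircle) :
    ‖(fourier n : C(UnitAddCircle, ℂ)) x‖ = 1 := by
  rw [fourier_apply]; exact Circle.norm_coe _

lemma rs_sq (m k : ℕ) (x : UnitAddCircle) :
    ‖(rs m k).1 x‖ ^ 2 + ‖(rs m k).2 x‖ ^ 2 = 2 * 2 ^ k := by
  induction k with
  | zero =>
    have h1 := norm_fourier_apply 1 x
    simp only [rs, h1]; norm_num
  | succ k ih =>
    have h1 := norm_fourier_apply (m * 2 ^ k : ℤ) x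
    simp only [rs, ContinuousMap.add_apply, ContinuousMap.sub_apply, ContinuousMap.mul_apply]
    have hpar := parallelogram_law_with_norm ℝ ((rs m k).1 x)
      ((fourier (m * 2 ^ k : ℤ) : C(UnitAddCircle, ℂ)) x * (rs m k).2 x)
    rw [norm_mul, h1, one_mul] at hpar
    have : ‖(rs m k).1 x + (fourier (m * 2 ^ k : ℤ) : C(UnitAddCircle, ℂ)) x * (rs m k).2 x‖ ^ 2
        + ‖(rs m k).1 x - (fourier (m * 2 ^ k : ℤ) : C(UnitAddCircle, ℂ)) x * (rs m k).2 x‖ ^ 2
        = 2 * (‖(rs m k).1 x‖ ^ 2 + ‖(rs m k).2 x‖ ^ 2) := by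
      nlinarith [hpar]
    rw [this, ih]; ring

lemma rs_coeff (m k : ℕ) : ∃ p q : ℕ → ℂ, (∀ n, ‖p n‖ = 1) ∧ (∀ n, ‖q n‖ = 1) ∧
    (rs m k).1 = ∑ n ∈ Finset.range (2 ^ k), p n • (fourier (m * (n : ℤ) + 1) : C(UnitAddCircle, ℂ)) ∧
    (rs m k).2 = ∑ n ∈ Finset.range (2 ^ k), q n • (fourier (m * (n : ℤ) + 1) : C(UnitAddCircle, ℂ)) := by
  induction k with
  | zero => exact ⟨fun _ => 1, fun _ => 1, by simp, by simp, by simp [rs], by simp [rs]⟩
  | succ k ih =>
    obtain ⟨p, q, hp, hq, hP, hQ⟩ := ih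
    have key : (fourier (m * 2 ^ k : ℤ) : C(UnitAddCircle, ℂ)) * (rs m k).2 =
        ∑ n ∈ Finset.range (2 ^ k), q n •
          (fourier (m * ((2 ^ k + n : ℕ) : ℤ) + 1) : C(UnitAddCircle, ℂ)) := by
      rw [hQ, Finset.mul_sum]
      refine Finset.sum_congr rfl fun n _ => ?_
      rw [mul_smul_comm]
      congr 1
      ext x
      rw [ContinuousMap.mul_apply, ← fourier_add]
      congr 2
      push_cast; ring
    refine ⟨fun n => if n < 2 ^ k then p n else q (n - 2 ^ k),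
      fun n => if n < 2 ^ k then p n else - q (n - 2 ^ k), ?_, ?_, ?_, ?_⟩
    · intro n; dsimp only; split_ifs <;> simp [hp, hq]
    · intro n; dsimp only; split_ifs <;> simp [hp, hq]
    · rw [show 2 ^ (k + 1) = 2 ^ k + 2 ^ k from by ring, Finset.sum_range_add]
      simp only [rs]
      rw [key]
      congr 1
      · rw [hP]
        refine Finset.sum_congr rfl fun n hn => ?_
        rw [if_pos (Finset.mem_range.mp hn)]
      · refine Finset.sum_congr rfl fun n hn => ?_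
        rw [if_neg (by omega)]
        congr 2; omega
    · rw [show 2 ^ (k + 1) = 2 ^ k + 2 ^ k from by ring, Finset.sum_range_add]
      simp only [rs]
      rw [key, sub_eq_add_neg, ← Finset.sum_neg_distrib]
      congr 1
      · rw [hP]
        refine Finset.sum_congr rfl fun n hn => ?_
        rw [if_pos (Finset.mem_range.mp hn)]
      · refine Finset.sum_congr rfl fun n hn => ?_
        rw [if_neg (by omega), Nat.add_sub_cancel_left]
        exact (neg_smul _ _).symm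

lemma not_sidon (m : ℕ) (hm : 1 ≤ m) (E : Set ℤ) (hE : ∀ n : ℕ, (m : ℤ) * n + 1 ∈ E) :
    ¬ IsSidon E := by
  rintro ⟨C, hC⟩
  have hm0 : (m : ℤ) ≠ 0 := by exact_mod_cast (by omega : m ≠ 0)
  have key : ∀ k : ℕ, (2 : ℝ) ^ k ≤ 2 * C ^ 2 := by
    intro k
    obtain ⟨p, -, hp, -, hP, -⟩ := rs_coeff m k
    have hinj : Set.InjOn (fun n : ℕ => (m : ℤ) * (n : ℤ) + 1) (Finset.range (2 ^ k) : Set ℕ) := by
      intro a _ b _ hab
      simp only at hab
      have h1 : (m : ℤ) * a = m * b := by linarith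
      have h2 := mul_left_cancel₀ hm0 h1
      exact_mod_cast h2
    have h := hC ((Finset.range (2 ^ k)).image (fun n : ℕ => (m : ℤ) * (n : ℤ) + 1))
      (fun l => p ((l - 1) / m).toNat) (by
        intro l hl
        simp only [Finset.coe_image, Set.mem_image] at hl
        obtain ⟨n, -, rfl⟩ := hl
        exact hE n)
    rw [Finset.sum_image hinj, Finset.sum_image hinj] at h
    simp only [hp, Finset.sum_const, Finset.card_range, nsmul_eq_mul, mul_one] at h
    have e : ∀ n : ℕ, (((m : ℤ) * (n : ℤ) + 1 - 1) / m).toNat = n := by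
      intro n
      rw [add_sub_cancel_right, Int.mul_ediv_cancel_left _ hm0]
      simp
    simp only [e] at h
    rw [← hP] at h
    have hn : ‖(rs m k).1‖ ^ 2 ≤ 2 * 2 ^ k := by
      have h0 : ‖(rs m k).1‖ ≤ Real.sqrt (2 * 2 ^ k) := by
        rw [ContinuousMap.norm_le _ (Real.sqrt_nonneg _)]
        intro x
        apply Real.le_sqrt_of_sq_le
        have := rs_sq m k x
        nlinarith [sq_nonneg ‖(rs m k).2 x‖]
      calc ‖(rs m k).1‖ ^ 2 ≤ (Real.sqrt (2 * 2 ^ k)) ^ 2 := by gcongr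
        _ = 2 * 2 ^ k := Real.sq_sqrt (by positivity)
    push_cast at h
    have h2 : ((2 : ℝ) ^ k) ^ 2 ≤ (C * ‖(rs m k).1‖) ^ 2 := by
      have : (0 : ℝ) ≤ 2 ^ k := by positivity
      gcongr
    have h3 : ((2 : ℝ) ^ k) * 2 ^ k ≤ (2 * C ^ 2) * 2 ^ k := by
      calc ((2 : ℝ) ^ k) * 2 ^ k = ((2 : ℝ) ^ k) ^ 2 := by ring
        _ ≤ (C * ‖(rs m k).1‖) ^ 2 := h2
        _ = C ^ 2 * ‖(rs m k).1‖ ^ 2 := by ring
        _ ≤ C ^ 2 * (2 * 2 ^ k) := by gcongr
        _ = (2 * C ^ 2) * 2 ^ k := by ring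
    exact le_of_mul_le_mul_right h3 (by positivity)
  obtain ⟨k, hk⟩ := pow_unbounded_of_one_lt (2 * C ^ 2) (by norm_num : (1 : ℝ) < 2)
  exact absurd (key k) (not_le.mpr hk)

lemma coeff_translate (f : C(UnitAddCircle, ℂ)) (a : UnitAddCircle) (n : ℤ) :
    fourierCoeff (fun x => f (x + a)) n =
      (fourier n : C(UnitAddCircle, ℂ)) a * fourierCoeff (⇑f) n := by
  have h1 := MeasureTheory.integral_add_right_eq_self
    (μ := (AddCircle.haarAddCircle : MeasureTheory.Measure UnitAddCircle))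
    (fun t : UnitAddCircle => (fourier (-n) : C(UnitAddCircle, ℂ)) (t - a) • f t) a
  simp only [add_sub_cancel_right] at h1
  unfold fourierCoeff
  rw [h1, ← MeasureTheory.integral_const_mul]
  congr 1
  ext t
  have h2 : (fourier (-n) : C(UnitAddCircle, ℂ)) (t - a) =
      (fourier n : C(UnitAddCircle, ℂ)) a * (fourier (-n) : C(UnitAddCircle, ℂ)) t := by
    simp only [fourier_apply]
    rw [smul_sub, sub_eq_add_neg, AddCircle.toCircle_add, mul_comm, neg_smul n a, neg_neg]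
    simp
  rw [h2]
  simp [mul_assoc]

lemma eq_zero_of_coeff (g : C(UnitAddCircle, ℂ)) (hg : ∀ n, fourierCoeff (⇑g) n = 0) : g = 0 := by
  have h0 : fourierCoeff (⇑g) = 0 := funext hg
  have hs : Summable (fourierCoeff (⇑g)) := by rw [h0]; exact summable_zero
  have h1 := hasSum_fourier_series_of_summable hs
  have h2 : HasSum (fun i : ℤ => fourierCoeff (⇑g) i • (fourier i : C(UnitAddCircle, ℂ)))
      (0 : C(UnitAddCircle, ℂ)) := by
    have h3 : (fun i : ℤ => fourierCoeff (⇑g) i • (fourier i : C(UnitAddCircle, ℂ))) =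
        fun _ => 0 := by
      funext i; ext x; simp [hg]
    rw [h3]
    exact hasSum_zero
  exact h1.unique h2

lemma fourier_div (m : ℕ) (n : ℤ) (j : ℕ) :
    (fourier n : C(UnitAddCircle, ℂ)) (((j : ℝ) / (m : ℝ) : ℝ) : UnitAddCircle) =
      (Complex.exp (2 * Real.pi * Complex.I * n / m)) ^ j := by
  rw [fourier_coe_apply, ← Complex.exp_nat_mul]
  congr 1
  push_cast
  ring

lemma root_ne_one (m : ℕ) (hm : 1 ≤ m) (n : ℤ) (hn : ¬ (m : ℤ) ∣ n) :
    Complex.exp (2 * Real.pi * Complex.I * n / m) ≠ 1 := by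
  intro h
  rw [Complex.exp_eq_one_iff] at h
  obtain ⟨k, hk⟩ := h
  apply hn
  have hm0 : (m : ℂ) ≠ 0 := by exact_mod_cast (by omega : m ≠ 0)
  have hpi : (2 * Real.pi * Complex.I : ℂ) ≠ 0 := Complex.two_pi_I_ne_zero
  have h1 : (n : ℂ) = m * k := by
    field_simp at hk
    exact hk
  exact ⟨k, by exact_mod_cast h1⟩

lemma root_pow (m : ℕ) (hm : 1 ≤ m) (n : ℤ) :
    Complex.exp (2 * Real.pi * Complex.I * n / m) ^ m = 1 := by
  rw [← Complex.exp_nat_mul]
  have hm0 : (m : ℂ) ≠ 0 := by exact_mod_cast (by omega : m ≠ 0)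
  have : (m : ℂ) * (2 * Real.pi * Complex.I * n / m) = n * (2 * Real.pi * Complex.I) := by
    field_simp
  rw [this, Complex.exp_int_mul_two_pi_mul_I]

lemma sum_root (m : ℕ) (hm : 1 ≤ m) (n : ℤ) (hn : ¬ (m : ℤ) ∣ n) :
    ∑ j ∈ Finset.range m, (Complex.exp (2 * Real.pi * Complex.I * n / m)) ^ j = 0 := by
  have h1 := mul_geom_sum (Complex.exp (2 * Real.pi * Complex.I * n / m)) m
  rw [root_pow m hm n, sub_self] at h1
  rcases mul_eq_zero.mp h1 with h | h
  · exact absurd (sub_eq_zero.mp h) (root_ne_one m hm n hn)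
  · exact h

/-- the translate of `f` by `j / m` -/
noncomputable def tr (m j : ℕ) (f : C(UnitAddCircle, ℂ)) : C(UnitAddCircle, ℂ) :=
  f.comp (ContinuousMap.mk (fun x : UnitAddCircle => x + (((j : ℝ) / (m : ℝ) : ℝ) : UnitAddCircle))
            (continuous_add_const _))

lemma tr_coeff (m j : ℕ) (f : C(UnitAddCircle, ℂ)) (n : ℤ) :
    fourierCoeff (⇑(tr m j f)) n =
      (Complex.exp (2 * Real.pi * Complex.I * n / m)) ^ j * fourierCoeff (⇑f) n := by
  rw [← fourier_div m n j]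
  exact coeff_translate f _ n

lemma coeff_add (f g : C(UnitAddCircle, ℂ)) (n : ℤ) :
    fourierCoeff (⇑(f + g)) n = fourierCoeff (⇑f) n + fourierCoeff (⇑g) n := by
  have := fourierCoeff.add (f := ⇑f) (g := ⇑g)
    (f.continuous.integrable_of_hasCompactSupport (HasCompactSupport.of_compactSpace _))
    (g.continuous.integrable_of_hasCompactSupport (HasCompactSupport.of_compactSpace _))
  exact congrFun this n

lemma coeff_smul (c : ℂ) (f : C(UnitAddCircle, ℂ)) (n : ℤ) :
    fourierCoeff (⇑(c • f)) n = c * fourierCoeff (⇑f) n :=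
  fourierCoeff.const_smul (⇑f) c n

lemma coeff_sum (s : Finset ℕ) (F : ℕ → C(UnitAddCircle, ℂ)) (n : ℤ) :
    fourierCoeff (⇑(∑ j ∈ s, F j)) n = ∑ j ∈ s, fourierCoeff (⇑(F j)) n := by
  classical
  induction s using Finset.induction_on with
  | empty => simp [fourierCoeff]
  | insert a s ha ih => rw [Finset.sum_insert ha, Finset.sum_insert ha, coeff_add, ih]

lemma coeff_one (n : ℤ) :
    fourierCoeff (⇑(fourier 0 : C(UnitAddCircle, ℂ))) n = if n = 0 then 1 else 0 := by
  rw [fourierCoeff_fourier]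
  simp [Pi.single_apply]

/-- averaging the translates of a function whose spectrum meets `mℤ` in `{0}` at most -/
lemma sum_tr (m : ℕ) (hm : 1 ≤ m) (f : C(UnitAddCircle, ℂ))
    (hf : ∀ n : ℤ, n ≠ 0 → (m : ℤ) ∣ n → fourierCoeff (⇑f) n = 0) :
    ∑ j ∈ Finset.range m, tr m j f =
      ((m : ℂ) * fourierCoeff (⇑f) 0) • (fourier 0 : C(UnitAddCircle, ℂ)) := by
  rw [← sub_eq_zero]
  apply eq_zero_of_coeff
  intro n
  rw [sub_eq_add_neg, ← neg_one_smul ℂ (((m : ℂ) * fourierCoeff (⇑f) 0) • _), coeff_add, coeff_sum,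
    coeff_smul, coeff_smul, coeff_one]
  simp only [tr_coeff m _]
  rw [← Finset.sum_mul]
  by_cases hn : n = 0
  · subst hn
    simp
  · rw [if_neg hn]
    by_cases hd : (m : ℤ) ∣ n
    · rw [hf n hn hd]; ring
    · rw [sum_root m hm n hd]; ring

/-- For every `m ≥ 2` let `E` be the set of all integers that are `0` or not divisible by `m`. Every
translation-invariant linear functional on `C_E(𝕋)` is a multiple of `f ↦ f̂(0)`, hence continuous,
and `E` is not a Sidon set. -/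
theorem result (m : ℕ) (hm : 2 ≤ m) :
    (∀ φ : Spec {n : ℤ | n = 0 ∨ ¬ (m : ℤ) ∣ n} →ₗ[ℂ] ℂ,
      IsTILF {n : ℤ | n = 0 ∨ ¬ (m : ℤ) ∣ n} φ →
        Continuous φ ∧ ∃ c : ℂ, ∀ f : Spec {n : ℤ | n = 0 ∨ ¬ (m : ℤ) ∣ n},
          φ f = c * fourierCoeff (⇑(f : C(UnitAddCircle, ℂ))) 0) ∧
    ¬ IsSidon {n : ℤ | n = 0 ∨ ¬ (m : ℤ) ∣ n} := by
  have hm1 : 1 ≤ m := by omega
  constructor
  · intro φ hφ
    have h0 : (fourier 0 : C(UnitAddCircle, ℂ)) ∈ Spec {n : ℤ | n = 0 ∨ ¬ (m : ℤ) ∣ n} := by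
      intro n hn
      rw [coeff_one, if_neg]
      intro h
      exact hn (Or.inl h)
    have key : ∀ f : Spec {n : ℤ | n = 0 ∨ ¬ (m : ℤ) ∣ n},
        φ f = φ ⟨fourier 0, h0⟩ * fourierCoeff (⇑(f : C(UnitAddCircle, ℂ))) 0 := by
      intro f
      have hmem : ∀ j, tr m j (f : C(UnitAddCircle, ℂ)) ∈
          Spec {n : ℤ | n = 0 ∨ ¬ (m : ℤ) ∣ n} := by
        intro j n hn
        rw [tr_coeff m j, f.2 n hn, mul_zero]
      have h1 : ∑ j ∈ Finset.range m, (⟨tr m j f, hmem j⟩ : Spec {n : ℤ | n = 0 ∨ ¬ (m : ℤ) ∣ n}) =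
          ((m : ℂ) * fourierCoeff (⇑(f : C(UnitAddCircle, ℂ))) 0) • ⟨fourier 0, h0⟩ := by
        apply Subtype.ext
        rw [Submodule.coe_sum, Submodule.coe_smul]
        apply sum_tr m hm1
        intro n hn hd
        apply f.2 n
        rintro (h | h)
        · exact hn h
        · exact h hd
      have h2 := congrArg φ h1
      rw [map_sum, map_smul] at h2
      have h3 : ∀ j ∈ Finset.range m, φ ⟨tr m j f, hmem j⟩ = φ f := by
        intro j _
        exact hφ _ f ⟨tr m j f, hmem j⟩ (fun x => rfl)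
      rw [Finset.sum_congr rfl h3] at h2
      simp only [Finset.sum_const, Finset.card_range, nsmul_eq_mul, smul_eq_mul] at h2
      have hm0 : (m : ℂ) ≠ 0 := by exact_mod_cast (by omega : m ≠ 0)
      apply mul_left_cancel₀ hm0
      linear_combination h2
    refine ⟨?_, φ ⟨fourier 0, h0⟩, key⟩
    have hb : ∀ f : Spec {n : ℤ | n = 0 ∨ ¬ (m : ℤ) ∣ n}, ‖φ f‖ ≤ ‖φ ⟨fourier 0, h0⟩‖ * ‖f‖ := by
      intro f
      rw [key f, norm_mul]
      gcongr
      have h4 : fourierCoeff (⇑(f : C(UnitAddCircle, ℂ))) 0 =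
          ∫ t : UnitAddCircle, (f : C(UnitAddCircle, ℂ)) t ∂AddCircle.haarAddCircle := by
        simp [fourierCoeff]
      rw [h4]
      calc ‖∫ t : UnitAddCircle, (f : C(UnitAddCircle, ℂ)) t ∂AddCircle.haarAddCircle‖
          ≤ ‖(f : C(UnitAddCircle, ℂ))‖ * (AddCircle.haarAddCircle :
            MeasureTheory.Measure UnitAddCircle).real Set.univ :=
            MeasureTheory.norm_integral_le_of_norm_le_const
              (Filter.Eventually.of_forall (fun t => ContinuousMap.norm_coe_le_norm _ t))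
        _ = ‖f‖ := by simp
    exact AddMonoidHomClass.continuous_of_bound φ _ hb
  · apply not_sidon m hm1
    intro n
    right
    intro h
    have h1 : (m : ℤ) ∣ 1 := (Int.dvd_add_right ⟨n, rfl⟩).mp h
    have h2 : (m : ℤ) ≤ 1 := Int.le_of_dvd one_pos h1
    omega

end Pool.Agent.Results.MP_2cf295_an.DenseSpectra
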